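import Pool.Agent.L5helper28.IF.PDefs
import Pool.Agent.N996.FP.Defs

/-!
# The conjecture A for the varieties of a Hodge theory: definitions
-/

set_option autoImplicit false

universe u

namespace Pool.Agent.L5helper28.CA

section

variable {K A B C : Type} [Field K] [Ring A] [Algebra K A] [Ring B] [Algebra K B] [Ring C]
  [Algebra K C]

/-- The element `a ^ n * b`. -/
def powerTimes (a : A) (n : ℕ) (b : A) : A := a ^ n * b

/-- The ring `A` is not zero. -/
def IsNonzero (A : Type) [Ring A] : Prop := (1 : A) ≠ 0

/-- The element `c` is the sum of the images of `a` and `b`. -/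
def SumOfImages (p : A →ₐ[K] C) (q : B →ₐ[K] C) (a : A) (b : B) (c : C) : Prop := c = p a + q b

end

open Pool.Agent.H914 Pool.Agent.H914.VarClass Pool.Agent.H914.VarClass.Obj
open Pool.Agent.Y121.AHS Pool.Agent.N996.FP Pool.Agent.L5helper28.Fam

variable {k : Type u} [Field k] {𝒱 : VarClass k} {ops : CycleOps 𝒱}

/-- The cohomology of `X` has a polarisation. (In the intended use this is always true.) -/
def Polarised (T : HodgeTheory ops) (X : 𝒱.Obj) : Prop := ∃ ψ, IsPolarisation T X ψ

/-- The cohomology class of the cycle `z`. -/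
noncomputable def classOf (T : HodgeTheory ops) {X : 𝒱.Obj} (z : X.Cycles) : T.W.H X := T.W.cl X z

/-- The classes of the algebraic cycles on `X`, of all codimensions. -/
def cycleClasses (T : HodgeTheory ops) (X : 𝒱.Obj) : Set (T.W.H X) :=
  {c | ∃ j z, X.IsCyc j z ∧ classOf T z = c}

/-- The class of every cycle on `P × Y` is a linear combination of products of classes of cycles on
the factors. -/
def CyclesSplit (T : HodgeTheory ops) (P Y : 𝒱.Obj) : Prop :=
  ∀ c ∈ cycleClasses T (P.prod Y), SumOfProducts (T.W.map (fst P Y)) (T.W.map (snd P Y))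
    (cycleClasses T P) (cycleClasses T Y) c

/-- Grothendieck's conjecture `A` for `X` and the divisor `D`: for `2 j ≤ n = dim X`, every class
of a cycle of codimension `n - j` is the product of the power `n - 2 j` of the class of `D` and the
class of a cycle of codimension `j`. -/
def ConjectureAFor (T : HodgeTheory ops) (X : 𝒱.Obj) (D : X.Cycles) : Prop :=
  ∀ j, 2 * j ≤ X.dim → ∀ z, X.IsCyc (X.dim - j) z →
    ∃ z', X.IsCyc j z' ∧ powerTimes (classOf T D) (X.dim - 2 * j) (classOf T z') = classOf T z

/-- The conjecture `A` is true for `X` and all divisors on `X` which satisfy the hard Lefschetz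
theorem, in particular for all ample divisors. -/
def ConjectureA (T : HodgeTheory ops) (X : 𝒱.Obj) : Prop :=
  ∀ D, X.IsCyc 1 D → HardLefschetz T.W X D → ConjectureAFor T X D

/-- Every Hodge class of degree two on `Y` is the class of a divisor. (In the intended use this is
always true: the theorem of Lefschetz on `(1, 1)`-classes.) -/
def LefschetzOneOne (T : HodgeTheory ops) (Y : 𝒱.Obj) : Prop :=
  ∀ c, IsHodge T Y 1 c → ∃ z, Y.IsCyc 1 z ∧ classOf T z = c

/-- The divisor `C` on `P × Y` is homologically equivalent to the sum `D × Y + P × B`, where `D` is a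
divisor on `P` and `B` a divisor on `Y`. -/
def IsSumOf (T : HodgeTheory ops) {P Y : 𝒱.Obj} (C : (P.prod Y).Cycles) (D : P.Cycles)
    (B : Y.Cycles) : Prop :=
  P.IsCyc 1 D ∧ Y.IsCyc 1 B ∧
    SumOfImages (T.W.map (fst P Y)) (T.W.map (snd P Y)) (classOf T D) (classOf T B) (classOf T C)

/-- Every divisor `C` on `P × Y` is homologically equivalent to a sum `D × Y + P × B` of divisors from
the factors, and for all such `C`, `D`, `B`: if `C` satisfies the hard Lefschetz theorem then so do
`D` and `B`, and the conjecture `A` is true for `(P × Y, C)` if and only if it is true for `(Y, B)`.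
(The cohomology of `P × Y` has to be nonzero; in the intended use this is always true.) -/
def SameConjectureA (T : HodgeTheory ops) (P Y : 𝒱.Obj) : Prop :=
  (∀ C, (P.prod Y).IsCyc 1 C → ∃ D B, IsSumOf T C D B) ∧
  (IsNonzero (T.W.H (P.prod Y)) → ∀ C D B, (P.prod Y).IsCyc 1 C → IsSumOf T C D B →
    HardLefschetz T.W (P.prod Y) C → HardLefschetz T.W P D ∧ HardLefschetz T.W Y B ∧
      (ConjectureAFor T (P.prod Y) C ↔ ConjectureAFor T Y B))

end Pool.Agent.L5helper28.CA
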