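import Pool.Agent.L5helper28.CA.PDefs
import Pool.Agent.Y121.AHS.CDefs
import Pool.Agent.R920.MT.Defs

/-!
# Pairwise independent families, absolutely Hodge classes and motivated classes: definitions
-/

set_option autoImplicit false

universe u v

namespace Pool.Agent.L5helper28.CA

open Pool.Agent.L5helper28.Fam (End commutator combination InHodgeLie SumOfProducts)
open Pool.Agent.Y121.AHS (Ext)

section

variable {K A : Type} [Field K] [Ring A] [Algebra K A]

/-- The set `h` of linear maps is perfect: every set of linear maps which is closed under linear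
combinations and contains the commutators of the elements of `h` contains `h`. -/
def IsPerfect (h : Set (End K A)) : Prop :=
  ∀ I : Set (End K A), (∀ D ∈ I, ∀ E ∈ I, ∀ r s : K, combination r s D E ∈ I) →
    (∀ D ∈ h, ∀ E ∈ h, commutator D E ∈ I) → h ⊆ I

/-- The Lie algebra of the Hodge group of the Hodge structure `A`. -/
def hodgeLie [Algebra K ℂ] (pq : ℤ → ℤ → Submodule ℂ (Ext K ℂ A)) : Set (End K A) :=
  {D | InHodgeLie (fun _ : Fin 1 => pq) fun _ => D}

end

/-- The Hodge structures are pairwise independent: the Lie algebras of their Hodge groups are perfect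
(the Hodge groups are semisimple), and the Lie algebra of the Hodge group of the sum of two
different members of the family is the product of the Lie algebras of the Hodge groups of these two
members. -/
def PairwiseIndependentHS {K : Type} [Field K] [Algebra K ℂ] {ι : Type v} {A : ι → Type}
    [∀ i, Ring (A i)] [∀ i, Algebra K (A i)]
    (pq : ∀ i, ℤ → ℤ → Submodule ℂ (Ext K ℂ (A i))) : Prop :=
  (∀ i, IsPerfect (hodgeLie (pq i))) ∧
    ∀ e : Fin 2 → ι, Function.Injective e → ∀ D : ∀ a, End K (A (e a)),
      (∀ a, D a ∈ hodgeLie (pq (e a))) → InHodgeLie (fun a => pq (e a)) D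

open Pool.Agent.H914 Pool.Agent.H914.VarClass Pool.Agent.H914.VarClass.Obj
open Pool.Agent.Y121.AHS (HodgeTheory IsHodge)
open Pool.Agent.Y121.AHS.Full (Conjugates IsAbsHodge)
open Pool.Agent.R920.MT (IsMotivated)
open Pool.Agent.Y133.Half (pw)

variable {k : Type u} [Field k] {𝒱 : VarClass k} {ops : CycleOps 𝒱}

/-- The family is pairwise independent: the Hodge groups of the members are semisimple, and the Lie
algebra of the Hodge group of the product of two different members is the product of the Lie
algebras of their Hodge groups. -/
def PairwiseIndependent (T : HodgeTheory ops) {ι : Type v} (X : ι → 𝒱.Obj) : Prop :=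
  PairwiseIndependentHS fun i => T.pq (X i)

/-- All Hodge classes on `X` are absolutely Hodge. -/
def AllAbsolute {T : HodgeTheory ops} (D : Conjugates T) (X : 𝒱.Obj) : Prop :=
  ∀ j c, IsHodge T X j c → IsAbsHodge D X j c

/-- The absolutely Hodge classes on `X`, of all degrees. -/
def absoluteClasses {T : HodgeTheory ops} (D : Conjugates T) (X : 𝒱.Obj) : Set (T.W.H X) :=
  {c | ∃ j, IsAbsHodge D X j c}

/-- Every absolutely Hodge class on `P × Y` is a linear combination of products of absolutely Hodge
classes on the factors. -/
def AbsoluteKunneth {T : HodgeTheory ops} (D : Conjugates T) (P Y : 𝒱.Obj) : Prop :=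
  ∀ c ∈ absoluteClasses D (P.prod Y), SumOfProducts (T.W.map (fst P Y)) (T.W.map (snd P Y))
    (absoluteClasses D P) (absoluteClasses D Y) c

/-- All Hodge classes on all powers of `X` are motivated: the Mumford-Tate group of `H(X)` is the
motivic Galois group of the André motive of `X`. -/
def AllMotivated (T : HodgeTheory ops) (X : 𝒱.Obj) : Prop :=
  ∀ n j c, IsHodge T (pw X n) j c → IsMotivated T.W (pw X n) j c

/-- The motivated classes on `X`, of all degrees. -/
def motivatedClasses (T : HodgeTheory ops) (X : 𝒱.Obj) : Set (T.W.H X) :=
  {c | ∃ j, IsMotivated T.W X j c}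

/-- Every motivated class on `P × Y` is a linear combination of products of motivated classes on the
factors. -/
def MotivatedKunneth (T : HodgeTheory ops) (P Y : 𝒱.Obj) : Prop :=
  ∀ c ∈ motivatedClasses T (P.prod Y), SumOfProducts (T.W.map (fst P Y)) (T.W.map (snd P Y))
    (motivatedClasses T P) (motivatedClasses T Y) c

end Pool.Agent.L5helper28.CA
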