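import Pool.Agent.L5helper28.CA.Cls2
import Pool.Agent.L5helper28.CA.PDefs2
import Pool.Agent.Y121.AHS.Conv2
import Pool.Agent.R920.MT.Main

/-!
# Absolutely Hodge classes and motivated classes: the theorems
-/

set_option autoImplicit false
set_option linter.unusedSectionVars false

open CategoryTheory AlgebraicGeometry TensorProduct

universe u v

namespace Pool.Agent.L5helper28.CA

open Module
open Pool.Agent.H914 Pool.Agent.H914.VarClass Pool.Agent.H914.VarClass.Obj
  Pool.Agent.H914.WeilCohomology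
open Pool.Agent.Y121 Pool.Agent.Y121.AHS Pool.Agent.N996 Pool.Agent.N996.FP
open Pool.Agent.L5helper28.IF
open Pool.Agent.Y133.Half (pw ClassPred)
open Pool.Agent.R920.MT (IsMotivated motPred)

noncomputable section

variable {k : Type u} [Field k] {𝒱 : VarClass k} {ops : CycleOps 𝒱} {T : HodgeTheory ops}
  {P Y X : 𝒱.Obj}

/-! ### The families -/

theorem perf_of {X : 𝒱.Obj} (h : IsPerfect (hodgeLie (T.pq X))) : Perf T X := by
  intro D hD
  let N : Submodule T.W.K (Tuples T fun _ : Fin 1 => X) := Submodule.span T.W.K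
    {w | ∃ A ∈ HodgeLie T (fun _ : Fin 1 => X), ∃ B ∈ HodgeLie T (fun _ : Fin 1 => X),
      w = A * B - B * A}
  have h1 := h {E | (fun _ => E) ∈ N} (by
      intro E hE F hF r s
      have h2 := add_mem (Submodule.smul_mem N r hE) (Submodule.smul_mem N s hF)
      exact h2) (by
      intro E hE F hF
      exact Submodule.subset_span ⟨fun _ => E, inHodgeLie_iff.1 hE, fun _ => F,
        inHodgeLie_iff.1 hF, rfl⟩)
  have h2 : D 0 ∈ hodgeLie (T.pq X) := by
    have h3 : (fun _ => D 0 : Tuples T fun _ : Fin 1 => X) = D := by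
      funext b
      rw [Subsingleton.elim b 0]
    refine (inHodgeLie_iff (X := fun _ : Fin 1 => X) (D := fun _ => D 0)).2 ?_
    rw [h3]
    exact hD
  have h3 := h1 h2
  have h4 : (fun _ => D 0 : Tuples T fun _ : Fin 1 => X) = D := by
    funext b
    rw [Subsingleton.elim b 0]
  have h5 : (fun _ => D 0 : Tuples T fun _ : Fin 1 => X) ∈ N := h3
  rw [h4] at h5
  exact h5

theorem independent_of_pairwise {ι : Type v} {X : ι → 𝒱.Obj} (h : PairwiseIndependent T X) :
    IF.Independent T X :=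
  independent_of_pairs (fun i => perf_of (h.1 i)) fun e he D hD =>
    inHodgeLie_iff.1 (h.2 e he D fun a =>
      (inHodgeLie_iff (X := fun _ : Fin 1 => X (e a)) (D := fun _ => D a)).2 (hD a))

/-- all three kinds of families -/
theorem splitting {ι : Type v} {X : ι → 𝒱.Obj} (hX : ∀ i, Polarised T (X i))
    (h : Fam.Independent T X ∨ Fam.NonIsogenousCurves T X ∨ PairwiseIndependent T X) {Z : 𝒱.Obj}
    (hZ : Polarised T Z) : ∃ S : Set ι, S.Finite ∧ 2 * S.ncard ≤ transBetti T Z ∧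
      ∀ P Y : 𝒱.Obj, Fam.Built T (X '' Sᶜ) P → Fam.Built T (insert Z (X '' S)) Y →
        Spl T P Y := by
  have hi : IF.Independent T X := by
    rcases h with h | h | h
    · exact indep_of h
    · exact indep_of_curves h hX
    · exact independent_of_pairwise h
  obtain ⟨S, hS, h1⟩ := exists_splitting X hX hi.ind hZ
  exact ⟨S, S.finite_toSet, by rwa [Set.ncard_coe_finset], fun P Y hP hY =>
    h1 P Y (built_of hP) (built_of hY)⟩

/-! ### Small dimension -/

theorem exists_cyc0 {c : T.W.H X} (hc : c ∈ T.W.gr X 0) :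
    ∃ z, X.IsCyc 0 z ∧ T.W.cl X z = c := by
  rw [T.W.gr_zero, Submodule.mem_span_singleton] at hc
  obtain ⟨r, rfl⟩ := hc
  obtain ⟨q, rfl⟩ := T.rat r
  exact ⟨q • X.V.fundCycle, SmVar.IsCyc.smul q X.V.fundCycle_mem, by
    rw [T.W.cl_smul, T.W.cl_fund]⟩

theorem q_pow {Q : ClassPred T.W} {i : ℕ} {x : T.W.H X} (hx : Q.P X i x) (n : ℕ) :
    Q.P X (i * n) (x ^ n) := by
  induction n with
  | zero =>
    rw [pow_zero, mul_zero, ← T.W.cl_fund X]
    exact Q.cl X.V.fundCycle_mem
  | succ n ih => rw [pow_succ, mul_add, mul_one]; exact Q.mul ih hx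

/-- in dimension at most three all Hodge classes are in every system -/
theorem allIn_three {Q : ClassPred T.W} (h11 : LefschetzOneOne T Y) (hd : Y.dim ≤ 3) :
    AllIn T Q Y := by
  have hsmall : ∀ (j : ℕ) (c : T.W.H Y), j ≤ 1 → IsHodge T Y j c → Q.P Y j c := by
    intro j c hj hc
    by_cases h0 : j = 0
    · subst h0
      obtain ⟨z, hz, rfl⟩ := exists_cyc0 (X := Y) hc.1
      exact Q.cl hz
    · obtain rfl : j = 1 := by omega
      obtain ⟨z, hz, rfl⟩ := h11 c hc
      exact Q.cl hz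
  intro j c hc
  by_cases hj : j ≤ 1
  · exact hsmall j c hj hc
  · by_cases hjd : Y.dim < j
    · have h1 := hc.1
      rw [T.W.gr_eq_bot Y _ (by omega)] at h1
      rw [(Submodule.mem_bot _).1 h1]
      exact Q.zero
    · obtain ⟨D, hD⟩ := (toH T).dec.polar Y
      have hj' : Y.dim - (Y.dim - j) = j := by omega
      obtain ⟨x, hx, hxc⟩ := AH.lifts_hodge (toH T) Y D hD (Y.dim - j) (by omega) c
        (by rw [hj']; exact hc)
      have h1 : Q.P Y (Y.dim - j) x := hsmall _ x (by omega) hx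
      have hD1 : Q.P Y (1 * (Y.dim - 2 * (Y.dim - j)))
          (T.W.cl Y D ^ (Y.dim - 2 * (Y.dim - j))) :=
        q_pow (Q.cl hD.1) _
      have h2 := Q.mul hD1 h1
      rw [show 1 * (Y.dim - 2 * (Y.dim - j)) + (Y.dim - j) = j by omega] at h2
      rw [← hxc]
      exact h2

/-- a class which splits is a sum of products -/
theorem sum_of {Q : ClassPred T.W} {M : Set (T.W.H P)} {N : Set (T.W.H Y)}
    (hM : ∀ a i, Q.P P i a → a ∈ M) (hN : ∀ b i, Q.P Y i b → b ∈ N) {c : T.W.H (P.prod Y)}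
    (hc : c ∈ Submodule.span T.W.K {x | ∃ a ∈ Q.sp P, ∃ b ∈ Q.sp Y,
      x = T.W.map (fst P Y) a * T.W.map (snd P Y) b}) :
    Fam.SumOfProducts (T.W.map (fst P Y)) (T.W.map (snd P Y)) M N c := by
  have key : c ∈ Submodule.span T.W.K {x | ∃ a ∈ M, ∃ b ∈ N,
      x = T.W.map (fst P Y) a * T.W.map (snd P Y) b} := by
    refine Submodule.span_le.2 ?_ hc
    rintro x ⟨a, ha, b, hb, rfl⟩
    refine ClassPred.sp_ind (Q := Q)
      (q := fun a : T.W.H P => T.W.map (fst P Y) a * T.W.map (snd P Y) b ∈ Submodule.span T.W.K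
        {x | ∃ a ∈ M, ∃ b ∈ N, x = T.W.map (fst P Y) a * T.W.map (snd P Y) b}) ?_
      (by rw [map_zero, zero_mul]; exact zero_mem _)
      (fun x y hx hy => by rw [map_add, add_mul]; exact add_mem hx hy) ha
    intro i a ha
    refine ClassPred.sp_ind (Q := Q)
      (q := fun b : T.W.H Y => T.W.map (fst P Y) a * T.W.map (snd P Y) b ∈ Submodule.span T.W.K
        {x | ∃ a ∈ M, ∃ b ∈ N, x = T.W.map (fst P Y) a * T.W.map (snd P Y) b}) ?_
      (by rw [map_zero, mul_zero]; exact zero_mem _)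
      (fun x y hx hy => by rw [map_add, mul_add]; exact add_mem hx hy) hb
    intro l b hb
    exact Submodule.subset_span ⟨a, hM a i ha, b, hN b l hb, rfl⟩
  exact key

/-! ### Absolutely Hodge classes -/

section Abs

variable (D : Full.Conjugates T)

theorem allAbs_iff : AllAbsolute D X ↔ AllIn T (AH.absPred (Full.toD D)) X :=
  forall_congr' fun _ => forall_congr' fun _ => imp_congr_right fun _ =>
    Full.isAbsHodge_iff.symm

theorem absKunneth_of (hs : Spl T P Y) (hP : AllAbsolute D P) : AbsoluteKunneth D P Y := by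
  rintro c ⟨j, hc⟩
  have h1 := split_in (Q := AH.absPred (Full.toD D)) (fun _ _ _ h => (Full.isAbsHodge_iff.1 h).1)
    hs ((allAbs_iff D).1 hP) (ClassPred.sp_of (Full.isAbsHodge_iff.2 hc))
  exact sum_of (Q := AH.absPred (Full.toD D)) (M := absoluteClasses D P) (N := absoluteClasses D Y)
    (fun a i ha => ⟨i, Full.isAbsHodge_iff.1 ha⟩) (fun b i hb => ⟨i, Full.isAbsHodge_iff.1 hb⟩) h1

/-- **The theorem on absolutely Hodge classes.** -/
theorem absolute_final {ι : Type v} (X : ι → 𝒱.Obj) (hX : ∀ i, Polarised T (X i))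
    (h : Fam.Independent T X ∨ Fam.NonIsogenousCurves T X ∨ PairwiseIndependent T X) (Z : 𝒱.Obj)
    (hZ : Polarised T Z) : ∃ S : Set ι, S.Finite ∧ 2 * S.ncard ≤ transBetti T Z ∧
      ∀ P Y : 𝒱.Obj, Fam.Built T (X '' Sᶜ) P → Fam.Built T (insert Z (X '' S)) Y →
        IsNonzero (T.W.H P) → AllAbsolute D P →
          AbsoluteKunneth D P Y ∧ (AllAbsolute D (P.prod Y) ↔ AllAbsolute D Y) ∧
            (Y.dim ≤ 3 → LefschetzOneOne T Y → AllAbsolute D (P.prod Y)) := by
  obtain ⟨S, hS, h2, h3⟩ := splitting hX h hZ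
  refine ⟨S, hS, h2, fun P Y hP hY h1 hPa => ?_⟩
  have hs := h3 P Y hP hY
  refine ⟨absKunneth_of D hs hPa, ?_, fun hd h11 => ?_⟩
  · rw [allAbs_iff, allAbs_iff]
    exact ⟨snd_in h1, prod_in hs ((allAbs_iff D).1 hPa)⟩
  · rw [allAbs_iff]
    exact prod_in hs ((allAbs_iff D).1 hPa) (allIn_three h11 hd)

end Abs

/-! ### Motivated classes -/

theorem allMot_iff : AllMotivated T X ↔ ∀ n, AllIn T (motPred T.W) (pw X n) := Iff.rfl

theorem built_pw {S : Set 𝒱.Obj} (h : Fam.Built T S X) (n : ℕ) : Fam.Built T S (pw X n) := by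
  induction n with
  | zero => exact h
  | succ n ih => exact Fam.Built.prod ih h

theorem one_pw (h : (1 : T.W.H X) ≠ 0) (n : ℕ) : (1 : T.W.H (pw X n)) ≠ 0 := by
  induction n with
  | zero => exact h
  | succ n ih =>
    intro h0
    obtain ⟨x, hx⟩ : ∃ x, T.W.tr (pw X n) x ≠ 0 := by
      by_contra h1
      push Not at h1
      exact ih (T.W.nondeg _ fun b => h1 _)
    obtain ⟨y, hy⟩ : ∃ y, T.W.tr X y ≠ 0 := by
      by_contra h1
      push Not at h1
      exact h (T.W.nondeg _ fun b => h1 _)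
    have h2 := T.W.tr_prod x y
    have h3 : T.W.map (fst (pw X n) X) x * T.W.map (snd (pw X n) X) y = 0 := by
      rw [← one_mul (T.W.map (fst (pw X n) X) x * T.W.map (snd (pw X n) X) y)]
      have h4 : (1 : T.W.H ((pw X n).prod X)) = 0 := h0
      rw [h4, zero_mul]
    rw [h3, map_zero] at h2
    exact mul_ne_zero hx hy h2.symm

theorem motKunneth_of (hM : ∀ (X : 𝒱.Obj) (j : ℕ) (c : T.W.H X), IsMotivated T.W X j c →
    IsHodge T X j c) (hs : Spl T P Y) (hP : AllMotivated T P) : MotivatedKunneth T P Y := by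
  rintro c ⟨j, hc⟩
  have h1 := split_in (Q := motPred T.W) hM hs (hP 0) (ClassPred.sp_of (Q := motPred T.W) hc)
  exact sum_of (Q := motPred T.W) (M := motivatedClasses T P) (N := motivatedClasses T Y)
    (fun a i ha => ⟨i, ha⟩) (fun b i hb => ⟨i, hb⟩) h1

/-- **The theorem on motivated classes.** -/
theorem motivated_final {ι : Type v} (X : ι → 𝒱.Obj) (hX : ∀ i, Polarised T (X i))
    (h : Fam.Independent T X ∨ Fam.NonIsogenousCurves T X ∨ PairwiseIndependent T X) (Z : 𝒱.Obj)
    (hZ : Polarised T Z) : ∃ S : Set ι, S.Finite ∧ 2 * S.ncard ≤ transBetti T Z ∧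
      ∀ P Y : 𝒱.Obj, Fam.Built T (X '' Sᶜ) P → Fam.Built T (insert Z (X '' S)) Y →
        IsNonzero (T.W.H P) → AllMotivated T P →
          MotivatedKunneth T P Y ∧ (AllMotivated T (P.prod Y) ↔ AllMotivated T Y) := by
  obtain ⟨S, hS, h2, h3⟩ := splitting hX h hZ
  refine ⟨S, hS, h2, fun P Y hP hY h1 hPa => ?_⟩
  refine ⟨motKunneth_of (fun X j c hc => Pool.Agent.R920.MT.IsMotivated.hodge (T := toH T) hc)
    (h3 P Y hP hY) hPa, fun h n => ?_, fun h n => ?_⟩
  · exact snd_in (one_pw h1 n) ((pw_prod_iff n).1 (allMot_iff.1 h n))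
  · exact (pw_prod_iff n).2 (prod_in (h3 _ _ (built_pw hP n) (built_pw hY n))
      (allMot_iff.1 hPa n) (allMot_iff.1 h n))

end

end Pool.Agent.L5helper28.CA
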