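import Pool.Agent.L5helper28.CA.Pair
import Pool.Agent.TH132.A.Split

/-!
# Systems of classes (absolutely Hodge classes, motivated classes) on products
-/

set_option autoImplicit false
set_option linter.unusedSectionVars false

open CategoryTheory AlgebraicGeometry TensorProduct

universe u v

namespace Pool.Agent.L5helper28.CA

open Module
open Pool.Agent.H914 Pool.Agent.H914.VarClass Pool.Agent.H914.VarClass.Obj
  Pool.Agent.H914.WeilCohomology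
open Pool.Agent.Y121 Pool.Agent.Y121.AHS Pool.Agent.N996 Pool.Agent.N996.FP
open Pool.Agent.L5helper28.IF Pool.Agent.W552
open Pool.Agent.Y133.Half (pw ClassPred prod_hom_ext)

noncomputable section

variable {k : Type u} [Field k] {𝒱 : VarClass k} {ops : CycleOps 𝒱} {T : HodgeTheory ops}
  {P Y X : 𝒱.Obj}

/-- all Hodge classes on `X` are in the system -/
def AllIn (T : HodgeTheory ops) (Q : ClassPred T.W) (X : 𝒱.Obj) : Prop :=
  ∀ (j : ℕ) (c : T.W.H X), IsHodge T X j c → Q.P X j c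

variable {Q : ClassPred T.W}

theorem prod_in (hs : Spl T P Y) (hP : AllIn T Q P) (hY : AllIn T Q Y) : AllIn T Q (P.prod Y) := by
  intro j c hc
  have h1 : c ∈ Q.sp (P.prod Y) := by
    refine (Submodule.span_le (p := Q.sp (P.prod Y))).2 ?_ (hodge_prod' hs hc)
    rintro x ⟨i, l, a, b, ha, hb, rfl⟩
    exact ClassPred.sp_of (Q.mul (Q.map _ (hP i a ha)) (Q.map _ (hY l b hb)))
  have h2 := ClassPred.sp_proj h1 j
  rwa [H914.proj_same _ hc.1] at h2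

theorem sp_of_AS {c : T.W.H X} (hc : AS T.W X c) : c ∈ Q.sp X := by
  refine AS.ind (p := fun c => c ∈ Q.sp X) ?_ (fun x y hx hy => add_mem hx hy) hc
  rintro j _ ⟨z, hz, rfl⟩
  exact ClassPred.sp_of (Q.cl hz)

/-- a class of the system of top degree with trace one -/
theorem exists_pt (h1 : (1 : T.W.H X) ≠ 0) : ∃ τ, Q.P X X.dim τ ∧ T.W.tr X τ = 1 := by
  obtain ⟨D, hD, hHL, -⟩ := T.polar X
  obtain ⟨τ, hτ, hτ1⟩ := TH132.A.exists_point hD hHL h1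
  refine ⟨_, ClassPred.sp_proj (sp_of_AS (Q := Q) hτ) X.dim, ?_⟩
  rw [← hτ1]
  refine gr_induction (T.W.isInternal X)
    (p := fun τ => T.W.tr X (H914.proj (T.W.isInternal X) (2 * X.dim) τ) = T.W.tr X τ) ?_ ?_ τ
  · intro i a ha
    by_cases hi : i = 2 * X.dim
    · subst hi
      rw [H914.proj_same _ ha]
    · rw [H914.proj_ne _ ha hi, map_zero, T.W.tr_eq_zero ha hi]
  · intro a b ha hb
    rw [map_add, map_add, ha, hb, map_add]

theorem snd_in (h1 : (1 : T.W.H P) ≠ 0) (h : AllIn T Q (P.prod Y)) : AllIn T Q Y := by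
  intro j c hc
  obtain ⟨τ, hτ, hτ1⟩ := exists_pt (Q := Q) h1
  have h2 : Q.P (P.prod Y) j (T.W.map (snd P Y) c) :=
    h j _ ⟨T.W.map_mem _ hc.1, (T.map _ _ (snd P Y) _ _ _ hc.2 :)⟩
  have h3 := Q.push (snd P Y) (j := P.dim + j) (l := j) (by rw [dim_prod]; omega)
    (Q.mul (Q.map (fst P Y) hτ) h2)
  rw [T.W.push_snd, hτ1, one_smul] at h3
  exact h3

theorem fst_in (h1 : (1 : T.W.H Y) ≠ 0) (h : AllIn T Q (P.prod Y)) : AllIn T Q P := by
  intro j c hc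
  obtain ⟨τ, hτ, hτ1⟩ := exists_pt (Q := Q) h1
  have h2 : Q.P (P.prod Y) j (T.W.map (fst P Y) c) :=
    h j _ ⟨T.W.map_mem _ hc.1, (T.map _ _ (fst P Y) _ _ _ hc.2 :)⟩
  have h3 := Q.push (fst P Y) (j := Y.dim + j) (l := j) (by rw [dim_prod]; omega)
    (Q.mul (Q.map (snd P Y) hτ) h2)
  have h4 : T.W.push (fst P Y) (T.W.map (snd P Y) τ * T.W.map (fst P Y) c) = c := by
    rw [← sub_eq_zero]
    refine T.W.nondeg _ fun b => ?_
    have hev : ∀ x, T.W.map (snd P Y) τ * x = x * T.W.map (snd P Y) τ :=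
      T.W.even_comm (T.W.map_mem _ (Q.gr hτ))
    rw [sub_mul, map_sub, T.W.tr_push, hev, mul_assoc, hev, ← mul_assoc, ← map_mul,
      T.W.tr_prod, hτ1, mul_one, sub_self]
  rw [h4] at h3
  exact h3

/-- **Products.** -/
theorem prod_iff (hs : Spl T P Y) (h1 : (1 : T.W.H P) ≠ 0) (h2 : (1 : T.W.H Y) ≠ 0) :
    AllIn T Q (P.prod Y) ↔ AllIn T Q P ∧ AllIn T Q Y :=
  ⟨fun h => ⟨fst_in h2 h, snd_in h1 h⟩, fun h => prod_in hs h.1 h.2⟩

/-! ### Powers -/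

/-- one step -/
def sf {R A B : 𝒱.Obj} (P Y : 𝒱.Obj) (f : R ⟶ A.prod B) :
    R.prod (P.prod Y) ⟶ (A.prod P).prod (B.prod Y) :=
  Obj.lift (Obj.lift (fst _ _ ≫ f ≫ fst _ _) (snd _ _ ≫ fst _ _))
    (Obj.lift (fst _ _ ≫ f ≫ snd _ _) (snd _ _ ≫ snd _ _))

/-- one step -/
def sg {R A B : 𝒱.Obj} (P Y : 𝒱.Obj) (g : A.prod B ⟶ R) :
    (A.prod P).prod (B.prod Y) ⟶ R.prod (P.prod Y) :=
  Obj.lift (Obj.lift (fst _ _ ≫ fst _ _) (snd _ _ ≫ fst _ _) ≫ g)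
    (Obj.lift (fst _ _ ≫ snd _ _) (snd _ _ ≫ snd _ _))

theorem sf_sg {R A B : 𝒱.Obj} (P Y : 𝒱.Obj) {f : R ⟶ A.prod B} {g : A.prod B ⟶ R}
    (h : f ≫ g = 𝟙 R) : sf P Y f ≫ sg P Y g = 𝟙 _ := by
  have h1 : sf P Y f ≫ Obj.lift (fst (A.prod P) (B.prod Y) ≫ fst _ _)
      (snd (A.prod P) (B.prod Y) ≫ fst _ _) = fst _ _ ≫ f := by
    apply prod_hom_ext <;> simp [sf]
  apply prod_hom_ext
  · rw [sg, Category.assoc, lift_fst, ← Category.assoc, h1, Category.assoc, h, Category.comp_id,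
      Category.id_comp]
  · rw [sg, Category.assoc, lift_snd, Category.id_comp]
    apply prod_hom_ext <;> simp [sf]

theorem sg_sf {R A B : 𝒱.Obj} (P Y : 𝒱.Obj) {f : R ⟶ A.prod B} {g : A.prod B ⟶ R}
    (h : g ≫ f = 𝟙 (A.prod B)) : sg P Y g ≫ sf P Y f = 𝟙 _ := by
  have h1 : sg P Y g ≫ fst _ _ ≫ f = Obj.lift (fst (A.prod P) (B.prod Y) ≫ fst _ _)
      (snd (A.prod P) (B.prod Y) ≫ fst _ _) := by
    rw [sg, ← Category.assoc, lift_fst, Category.assoc, h, Category.comp_id]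
  have h2 : sg P Y g ≫ fst _ _ ≫ f ≫ fst _ _ = fst (A.prod P) (B.prod Y) ≫ fst _ _ := by
    have := congrArg (fun x => x ≫ fst _ _) h1
    simpa using this
  have h3 : sg P Y g ≫ fst _ _ ≫ f ≫ snd _ _ = snd (A.prod P) (B.prod Y) ≫ fst _ _ := by
    have := congrArg (fun x => x ≫ snd _ _) h1
    simpa using this
  have h4 : sg P Y g ≫ snd _ _ = Obj.lift (fst (A.prod P) (B.prod Y) ≫ snd _ _)
      (snd (A.prod P) (B.prod Y) ≫ snd _ _) := by
    rw [sg, lift_snd]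
  apply prod_hom_ext
  · rw [sf, Category.assoc, lift_fst, Category.id_comp]
    apply prod_hom_ext
    · rw [Category.assoc, lift_fst, h2]
    · rw [Category.assoc, lift_snd, ← Category.assoc, h4, lift_fst]
  · rw [sf, Category.assoc, lift_snd, Category.id_comp]
    apply prod_hom_ext
    · rw [Category.assoc, lift_fst, h3]
    · rw [Category.assoc, lift_snd, ← Category.assoc, h4, lift_snd]

/-- `(P × Y) ^ (n + 1) → P ^ (n + 1) × Y ^ (n + 1)` -/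
def pf (P Y : 𝒱.Obj) : ∀ n : ℕ, (pw (P.prod Y) n ⟶ (pw P n).prod (pw Y n))
  | 0 => 𝟙 _
  | n + 1 => sf P Y (pf P Y n)

/-- `P ^ (n + 1) × Y ^ (n + 1) → (P × Y) ^ (n + 1)` -/
def pg (P Y : 𝒱.Obj) : ∀ n : ℕ, ((pw P n).prod (pw Y n) ⟶ pw (P.prod Y) n)
  | 0 => 𝟙 _
  | n + 1 => sg P Y (pg P Y n)

theorem pf_pg (P Y : 𝒱.Obj) (n : ℕ) : pf P Y n ≫ pg P Y n = 𝟙 _ := by
  induction n with
  | zero => exact Category.comp_id _
  | succ n ih => exact sf_sg P Y ih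

theorem pg_pf (P Y : 𝒱.Obj) (n : ℕ) : pg P Y n ≫ pf P Y n = 𝟙 _ := by
  induction n with
  | zero => exact Category.comp_id _
  | succ n ih => exact sg_sf P Y ih

theorem in_of_retract {A B : 𝒱.Obj} (f : A ⟶ B) (g : B ⟶ A) (hfg : f ≫ g = 𝟙 A)
    (h : AllIn T Q B) : AllIn T Q A := by
  intro j c hc
  have h1 : Q.P B j (T.W.map g c) :=
    h j _ ⟨T.W.map_mem _ hc.1, (T.map _ _ g _ _ _ hc.2 :)⟩
  have h2 := Q.map f h1
  rwa [← T.W.map_comp, hfg, T.W.map_id] at h2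

theorem pw_prod_iff (n : ℕ) :
    AllIn T Q (pw (P.prod Y) n) ↔ AllIn T Q ((pw P n).prod (pw Y n)) :=
  ⟨in_of_retract _ _ (pg_pf P Y n), in_of_retract _ _ (pf_pg P Y n)⟩

end

end Pool.Agent.L5helper28.CA
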