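import Pool.Agent.L5helper28.CA.Cls

/-!
# The classes of a system on a product split
-/

set_option autoImplicit false
set_option linter.unusedSectionVars false

open CategoryTheory AlgebraicGeometry TensorProduct

universe u v

namespace Pool.Agent.L5helper28.CA

open Module
open Pool.Agent.H914 Pool.Agent.H914.VarClass Pool.Agent.H914.VarClass.Obj
  Pool.Agent.H914.WeilCohomology
open Pool.Agent.Y121 Pool.Agent.Y121.AHS Pool.Agent.N996 Pool.Agent.N996.FP
open Pool.Agent.L5helper28.IF Pool.Agent.W552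
open Pool.Agent.Y133.Half (pw ClassPred prod_hom_ext)

noncomputable section

variable {k : Type u} [Field k] {𝒱 : VarClass k} {ops : CycleOps 𝒱} {T : HodgeTheory ops}
  {P Y X : 𝒱.Obj}

theorem spH_comm {Z : 𝒱.Obj} {a : T.W.H X} (ha : a ∈ spH T X) (f : Z ⟶ X) (b : T.W.H Z) :
    T.W.map f a * b = b * T.W.map f a := by
  induction ha using Submodule.span_induction with
  | mem a ha =>
    obtain ⟨j, hj⟩ := ha
    exact T.W.even_comm (T.W.map_mem f hj.1) b
  | zero => rw [map_zero, zero_mul, mul_zero]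
  | add x y _ _ hx hy => rw [map_add, add_mul, mul_add, hx, hy]
  | smul r x _ hx => rw [map_smul, smul_mul_assoc, mul_smul_comm, hx]

theorem spH_nondeg {a : T.W.H X} (ha : a ∈ spH T X) (h : ∀ b ∈ spH T X, T.W.tr X (a * b) = 0) :
    a = 0 :=
  AH.hodge_nondeg (T := toH T) (of_spH ha) fun y hy => h y (spH_of hy)

/-- dual bases of the space of the Hodge classes -/
theorem exists_dual_hodge (T : HodgeTheory ops) (X : 𝒱.Obj) : ∃ (N : ℕ) (a b : Fin N → T.W.H X),
    (∀ i, a i ∈ spH T X) ∧ (∀ i, b i ∈ spH T X) ∧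
    (∀ i j, T.W.tr X (a i * b j) = if i = j then 1 else 0) ∧
    ∀ x ∈ spH T X, x ∈ Submodule.span T.W.K (Set.range a) := by
  classical
  let U := spH T X
  let B : LinearMap.BilinForm T.W.K U := LinearMap.BilinForm.restrict (bil T.W X) U
  have hBa : ∀ x y : U, B x y = T.W.tr X ((x : T.W.H X) * y) := fun x y => rfl
  have hsym : ∀ x y : U, B x y = B y x := by
    intro x y
    rw [hBa, hBa]
    have h1 := spH_comm x.2 (𝟙 X) (y : T.W.H X)
    rw [T.W.map_id] at h1
    rw [h1]
  have hl : ∀ x : U, (∀ y, B x y = 0) → x = 0 := by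
    intro x hx
    refine Subtype.ext (spH_nondeg x.2 fun b hb => ?_)
    rw [← hx ⟨b, hb⟩, hBa]
  have hB : B.Nondegenerate :=
    ⟨hl, fun y hy => hl y fun x => by rw [hsym]; exact hy x⟩
  let b := Module.finBasis T.W.K U
  refine ⟨_, fun i => (B.dualBasis hB b i : T.W.H X), fun i => (b i : T.W.H X), fun i =>
    (B.dualBasis hB b i).2, fun i => (b i).2, fun i j => ?_, fun x hx => ?_⟩
  · rw [← hBa, LinearMap.BilinForm.apply_dualBasis_left]
    exact if_congr ⟨Eq.symm, Eq.symm⟩ rfl rfl
  · have h1 : (⟨x, hx⟩ : U) ∈ Submodule.span T.W.K (Set.range (B.dualBasis hB b)) := by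
      rw [(B.dualBasis hB b).span_eq]
      exact Submodule.mem_top
    have h2 := Submodule.mem_map_of_mem (f := U.subtype) h1
    rw [Submodule.map_span, ← Set.range_comp] at h2
    exact h2

/-- **The classes of a system split.** -/
theorem split_in {Q : ClassPred T.W} (hQ : ∀ (X : 𝒱.Obj) (j : ℕ) (c : T.W.H X), Q.P X j c →
    IsHodge T X j c) (hs : Spl T P Y) (hP : AllIn T Q P) {c : T.W.H (P.prod Y)}
    (hc : c ∈ Q.sp (P.prod Y)) :
    c ∈ Submodule.span T.W.K {x | ∃ a ∈ Q.sp P, ∃ b ∈ Q.sp Y,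
      x = T.W.map (fst P Y) a * T.W.map (snd P Y) b} := by
  classical
  obtain ⟨N, a, b, ha, hb, hab, hspan⟩ := exists_dual_hodge T P
  have hPs : spH T P ≤ Q.sp P := by
    refine Submodule.span_le.2 ?_
    rintro x ⟨j, hj⟩
    exact ClassPred.sp_of (hP j x hj)
  have hcH : c ∈ spH T (P.prod Y) := by
    refine ClassPred.sp_ind (Q := Q) (q := fun c => c ∈ spH T (P.prod Y)) ?_ (zero_mem _)
      (fun x y hx hy => add_mem hx hy) hc
    intro j x hx
    exact Submodule.subset_span ⟨j, hQ _ _ _ hx⟩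
  have h1 : ∃ v : Fin N → T.W.H Y, c = ∑ i, T.W.map (fst P Y) (a i) * T.W.map (snd P Y) (v i) := by
    have h2 := hodge_prod hs hcH
    clear hcH hc
    induction h2 using Submodule.span_induction with
    | mem w hw =>
      obtain ⟨i, j, x, y, hx, hy, rfl⟩ := hw
      obtain ⟨r, hr⟩ := (Submodule.mem_span_range_iff_exists_fun T.W.K).1
        (hspan x (Submodule.subset_span ⟨i, hx⟩))
      refine ⟨fun i => r i • y, ?_⟩
      rw [← hr]
      simp only [map_sum, map_smul, Finset.sum_mul, smul_mul_assoc, mul_smul_comm]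
    | zero => exact ⟨0, by simp⟩
    | add x y _ _ hx hy =>
      obtain ⟨v, rfl⟩ := hx
      obtain ⟨w, rfl⟩ := hy
      refine ⟨v + w, ?_⟩
      rw [← Finset.sum_add_distrib]
      refine Finset.sum_congr rfl fun i _ => ?_
      simp only [Pi.add_apply, map_add, mul_add]
    | smul r x _ hx =>
      obtain ⟨v, rfl⟩ := hx
      refine ⟨r • v, ?_⟩
      rw [Finset.smul_sum]
      refine Finset.sum_congr rfl fun i _ => ?_
      simp only [Pi.smul_apply, map_smul, mul_smul_comm]
  obtain ⟨v, hv⟩ := h1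
  have h2 : ∀ j, T.W.push (snd P Y) (c * T.W.map (fst P Y) (b j)) = v j := by
    intro j
    rw [hv, Finset.sum_mul, map_sum, Finset.sum_eq_single j]
    · rw [mul_assoc, ← spH_comm (hb j) (fst P Y) (T.W.map (snd P Y) (v j)), ← mul_assoc,
        ← map_mul, T.W.push_snd, hab, if_pos rfl, one_smul]
    · intro i _ hij
      rw [mul_assoc, ← spH_comm (hb j) (fst P Y) (T.W.map (snd P Y) (v i)), ← mul_assoc,
        ← map_mul, T.W.push_snd, hab, if_neg hij, zero_smul]
    · intro h0
      exact absurd (Finset.mem_univ _) h0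
  have hsys := Q.sys
  have h3 : ∀ j, v j ∈ Q.sp Y := by
    intro j
    rw [← h2]
    have h4 : T.W.map (fst P Y) (b j) ∈ Q.sp (P.prod Y) := by
      refine ClassPred.sp_ind (Q := Q) (q := fun c => T.W.map (fst P Y) c ∈ Q.sp (P.prod Y)) ?_
        (by rw [map_zero]; exact zero_mem _) (fun x y hx hy => by rw [map_add]; exact add_mem hx hy)
        (hPs (hb j))
      intro l x hx
      exact ClassPred.sp_of (Q.map _ hx)
    have h5 : c * T.W.map (fst P Y) (b j) ∈ Q.sp (P.prod Y) := by
      refine ClassPred.sp_ind (Q := Q)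
        (q := fun c => c * T.W.map (fst P Y) (b j) ∈ Q.sp (P.prod Y)) ?_
        (by rw [zero_mul]; exact zero_mem _) (fun x y hx hy => by rw [add_mul]; exact add_mem hx hy)
        hc
      intro l x hx
      refine ClassPred.sp_ind (Q := Q) (q := fun d => x * d ∈ Q.sp (P.prod Y)) ?_
        (by rw [mul_zero]; exact zero_mem _) (fun x y hx hy => by rw [mul_add]; exact add_mem hx hy)
        h4
      intro m y hy
      exact ClassPred.sp_of (Q.mul hx hy)
    refine ClassPred.sp_ind (Q := Q) (q := fun c => T.W.push (snd P Y) c ∈ Q.sp Y) ?_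
      (by rw [map_zero]; exact zero_mem _) (fun x y hx hy => by rw [map_add]; exact add_mem hx hy)
      h5
    intro l x hx
    by_cases hl : P.dim ≤ l
    · exact ClassPred.sp_of (Q.push (snd P Y) (l := l - P.dim) (by rw [dim_prod]; omega) hx)
    · have h6 : T.W.push (snd P Y) x = 0 := by
        refine T.W.nondeg _ fun y => ?_
        refine gr_induction (T.W.isInternal Y)
          (p := fun y => T.W.tr Y (T.W.push (snd P Y) x * y) = 0) ?_ ?_ y
        · intro i y hy
          rw [T.W.tr_push]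
          by_cases hi : 2 * l + i = 2 * (P.prod Y).dim
          · rw [T.W.gr_eq_bot Y i (by rw [dim_prod] at hi; omega)] at hy
            rw [(Submodule.mem_bot _).1 hy, map_zero, mul_zero, map_zero]
          · exact T.W.tr_eq_zero (T.W.mul_mem (Q.gr hx) (T.W.map_mem _ hy)) hi
        · intro y z hy hz
          rw [mul_add, map_add, hy, hz, add_zero]
      rw [h6]
      exact zero_mem _
  rw [hv]
  exact sum_mem fun i _ => Submodule.subset_span ⟨a i, hPs (ha i), v i, h3 i, rfl⟩

end

end Pool.Agent.L5helper28.CA
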