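import Pool.Agent.L5helper28.IF.Bridge

/-!
# Pairwise independent members with perfect Lie algebras are independent
-/

set_option autoImplicit false
set_option linter.unusedSectionVars false

open AlgebraicGeometry TensorProduct

universe u v

namespace Pool.Agent.L5helper28.CA

open Module
open Pool.Agent.H914 Pool.Agent.H914.VarClass Pool.Agent.H914.VarClass.Obj
  Pool.Agent.H914.WeilCohomology
open Pool.Agent.Y121 Pool.Agent.Y121.AHS Pool.Agent.N996 Pool.Agent.N996.FP
open Pool.Agent.L5helper28.IF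

noncomputable section

section Abstract

variable {J : Type*} {V : J → Type} [∀ j, AddCommGroup (V j)] [∀ j, Module ℂ (V j)]
  {ι : Type*} {L : Submodule ℂ (Ops V)} {x : ι → J}

/-- **The lemma of Ribet.** -/
theorem ind_of_pairs (hL : ∀ D ∈ L, ∀ E ∈ L, D * E - E * D ∈ L)
    (perf : ∀ i, ∀ D ∈ L, D (x i) ∈ Submodule.span ℂ {w : Module.End ℂ (V (x i)) | ∃ A ∈ L, ∃ B ∈ L,
      w = A (x i) * B (x i) - B (x i) * A (x i)})
    (pair : ∀ i j, i ≠ j → ∀ D ∈ L, ∃ D' ∈ L, D' (x j) = 0 ∧ D' (x i) = D (x i))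
    (F : Finset ι) : Ind L x F := by
  classical
  have key : ∀ (i : ι) (G : Finset ι), i ∉ G → ∀ D ∈ L, ∃ D' ∈ JF L x (G : Set ι),
      D' (x i) = D (x i) := by
    intro i G
    induction G using Finset.induction_on with
    | empty =>
      intro _ D hD
      exact ⟨D, ⟨hD, fun j hj => absurd hj (by simp)⟩, rfl⟩
    | insert j G hj ih =>
      intro hi D hD
      rw [Finset.mem_insert, not_or] at hi
      have h1 : ∀ w ∈ Submodule.span ℂ {w : Module.End ℂ (V (x i)) | ∃ A ∈ L, ∃ B ∈ L,
          w = A (x i) * B (x i) - B (x i) * A (x i)},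
          ∃ D' ∈ JF L x ((insert j G : Finset ι) : Set ι), D' (x i) = w := by
        intro w hw
        induction hw using Submodule.span_induction with
        | mem w hw =>
          obtain ⟨A, hA, B, hB, rfl⟩ := hw
          obtain ⟨A', hA', hA2⟩ := ih hi.2 A hA
          obtain ⟨B', hB', hB1, hB2⟩ := pair i j hi.1 B hB
          refine ⟨A' * B' - B' * A', ⟨hL _ hA'.1 _ hB', fun l hl => ?_⟩, ?_⟩
          · change A' (x l) * B' (x l) - B' (x l) * A' (x l) = 0
            rw [Finset.coe_insert, Set.mem_insert_iff] at hl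
            rcases hl with rfl | hl
            · rw [hB1, mul_zero, zero_mul, sub_zero]
            · rw [hA'.2 l hl, mul_zero, zero_mul, sub_zero]
          · change A' (x i) * B' (x i) - B' (x i) * A' (x i) = _
            rw [hA2, hB2]
        | zero => exact ⟨0, zero_mem _, rfl⟩
        | add a b _ _ ha hb =>
          obtain ⟨D1, h1, h2⟩ := ha
          obtain ⟨D2, h3, h4⟩ := hb
          exact ⟨D1 + D2, add_mem h1 h3, by rw [Pi.add_apply, h2, h4]⟩
        | smul c a _ ha =>
          obtain ⟨D1, h1, h2⟩ := ha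
          exact ⟨c • D1, Submodule.smul_mem _ _ h1, by rw [Pi.smul_apply, h2]⟩
      exact h1 _ (perf i D hD)
  intro i hi D hD
  obtain ⟨D', hD', h1⟩ := key i (F.erase i) (Finset.notMem_erase i F) D hD
  refine ⟨D', ⟨hD'.1, fun l hl => hD'.2 l ?_⟩, h1⟩
  rw [Finset.coe_erase]
  exact hl

end Abstract

variable {k : Type u} [Field k] {𝒱 : VarClass k} {ops : CycleOps 𝒱} {T : HodgeTheory ops}

/-- the rational Lie algebra of `X` consists of combinations of commutators -/
def Perf (T : HodgeTheory ops) (X : 𝒱.Obj) : Prop :=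
  ∀ D ∈ HodgeLie T (fun _ : Fin 1 => X), D ∈ Submodule.span T.W.K
    {w | ∃ A ∈ HodgeLie T (fun _ : Fin 1 => X), ∃ B ∈ HodgeLie T (fun _ : Fin 1 => X),
      w = A * B - B * A}

theorem perf_complex {X : 𝒱.Obj} (h : Perf T X) {D : Ops fun Y : 𝒱.Obj => CV T.W Y}
    (hD : D ∈ LT T) : D X ∈ Submodule.span ℂ {w : Module.End ℂ (CV T.W X) | ∃ A ∈ LT T, ∃ B ∈ LT T,
      w = A X * B X - B X * A X} := by
  have h1 : rs (fun _ : Fin 1 => X) D ∈ cps (gr0 T fun _ : Fin 1 => X) := rs_mem hD
  have h2 : ∀ A ∈ cps (gr0 T fun _ : Fin 1 => X), A 0 ∈ Submodule.span ℂ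
      {w : Module.End ℂ (CV T.W X) | ∃ A ∈ LT T, ∃ B ∈ LT T, w = A X * B X - B X * A X} := by
    intro A hA
    induction hA using Submodule.span_induction with
    | mem A hA =>
      obtain ⟨D', hD', rfl⟩ := hA
      rw [gr0_eq] at hD'
      have h3 := h D' hD'
      clear hD'
      induction h3 using Submodule.span_induction with
      | mem w hw =>
        obtain ⟨A, hA, B, hB, rfl⟩ := hw
        obtain ⟨A', hA', h4⟩ := mem_hodgeLie.1 hA
        obtain ⟨B', hB', h5⟩ := mem_hodgeLie.1 hB
        refine Submodule.subset_span ⟨A', hA', B', hB', ?_⟩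
        rw [cpl_sub, cpl_mul, cpl_mul, ← h4, ← h5]
        rfl
      | zero => rw [cpl_zero]; exact zero_mem _
      | add a b _ _ ha hb => rw [cpl_add]; exact add_mem ha hb
      | smul c a _ ha => rw [cpl_smul]; exact Submodule.smul_mem _ _ ha
    | zero => exact zero_mem _
    | add a b _ _ ha hb => exact add_mem ha hb
    | smul c a _ ha => exact Submodule.smul_mem _ _ ha
  exact h2 _ h1

/-- pairwise independence -/
def Pairs (T : HodgeTheory ops) {ι : Type*} (X : ι → 𝒱.Obj) : Prop :=
  ∀ e : Fin 2 → ι, Function.Injective e → ∀ D : Tuples T fun a => X (e a),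
    (∀ a, (fun _ => D a) ∈ HodgeLie T fun _ : Fin 1 => X (e a)) → D ∈ HodgeLie T fun a => X (e a)

theorem pairs_complex {ι : Type*} {X : ι → 𝒱.Obj} (h : Pairs T X) {i j : ι} (hij : i ≠ j)
    {D : Ops fun Y : 𝒱.Obj => CV T.W Y} (hD : D ∈ LT T) :
    ∃ D' ∈ LT T, D' (X j) = 0 ∧ D' (X i) = D (X i) := by
  have h1 : rs (fun _ : Fin 1 => X i) D ∈ cps (gr0 T fun _ : Fin 1 => X i) := rs_mem hD
  have h2 : ∀ A ∈ cps (gr0 T fun _ : Fin 1 => X i), ∃ D' ∈ LT T, D' (X j) = 0 ∧ D' (X i) = A 0 := by
    intro A hA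
    induction hA using Submodule.span_induction with
    | mem A hA =>
      obtain ⟨D', hD', rfl⟩ := hA
      rw [gr0_eq] at hD'
      let e : Fin 2 → ι := ![i, j]
      have he : Function.Injective e := by
        intro a b hab
        fin_cases a <;> fin_cases b
        · rfl
        · exact absurd hab hij
        · exact absurd hab.symm hij
        · rfl
      let U : Tuples T fun a => X (e a) := Fin.cons (α := fun a => Module.End T.W.K (T.W.H (X (e a))))
        (D' 0) (fun _ => 0)
      obtain ⟨E, hE, h3⟩ := mem_hodgeLie.1 (h e he U (by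
        intro a
        fin_cases a
        · have h4 : (fun _ => D' 0 : Tuples T fun _ : Fin 1 => X i) = D' := by
            funext b
            rw [Subsingleton.elim b 0]
          change (fun _ => D' 0 : Tuples T fun _ : Fin 1 => X i) ∈ HodgeLie T fun _ : Fin 1 => X i
          rw [h4]
          exact hD'
        · exact zero_mem (HodgeLie T fun _ : Fin 1 => X j)))
      refine ⟨E, hE, ?_, congrFun h3 0⟩
      have h5 := congrFun h3 1
      have h6 : cpl U 1 = 0 := by
        change (0 : Module.End T.W.K (T.W.H (X j))).baseChange ℂ = 0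
        exact LinearMap.baseChange_zero
      rw [h6] at h5
      exact h5
    | zero => exact ⟨0, zero_mem _, rfl, rfl⟩
    | add A B _ _ hA hB =>
      obtain ⟨D', hD', h3, h4⟩ := hA
      obtain ⟨D'', hD'', h5, h6⟩ := hB
      refine ⟨D' + D'', add_mem hD' hD'', ?_, ?_⟩
      · rw [Pi.add_apply, h3, h5, add_zero]
      · rw [Pi.add_apply, h4, h6]; rfl
    | smul c A _ hA =>
      obtain ⟨D', hD', h3, h4⟩ := hA
      refine ⟨c • D', Submodule.smul_mem _ _ hD', ?_, ?_⟩
      · rw [Pi.smul_apply, h3, smul_zero]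
      · rw [Pi.smul_apply, h4]; rfl
  exact h2 _ h1

/-- **Pairwise independence is enough.** -/
theorem independent_of_pairs {ι : Type*} {X : ι → 𝒱.Obj} (hp : ∀ i, Perf T (X i))
    (h : Pairs T X) : IF.Independent T X :=
  independent_of_ind fun F => ind_of_pairs (fun _ hD _ hE => LL_br hD hE)
    (fun i _ hD => perf_complex (hp i) hD) (fun _ _ hij _ hD => pairs_complex h hij hD) F

end

end Pool.Agent.L5helper28.CA
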